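import Mathlib
import Pool.Agent.H713R2.AR.AF4

/-!
# The square integral of a holomorphic function over a disc
-/

set_option autoImplicit false

open MeasureTheory Metric Set Filter Topology

namespace Pool.Agent.X151.MD

open Pool.Agent.H713R2 Pool.Agent.H713R2.AR

/-- Integration in polar coordinates. -/
theorem polar {F : ℂ → ℝ} {ρ : ℝ} (hF : ContinuousOn F (ball 0 ρ)) :
    ∫⁻ z in ball (0 : ℂ) ρ, ENNReal.ofReal (F z) =
      ∫⁻ s in Ioo (0 : ℝ) ρ, ENNReal.ofReal s *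
        ∫⁻ θ in Ioo (-Real.pi) Real.pi, ENNReal.ofReal (F (circleMap 0 s θ)) := by
  rw [← lintegral_indicator measurableSet_ball, ← Complex.lintegral_comp_polarCoord_symm]
  have hmaps : ∀ p ∈ Ioo (0:ℝ) ρ ×ˢ Ioo (-Real.pi) Real.pi, circleMap 0 p.1 p.2 ∈ ball (0:ℂ) ρ := by
    rintro ⟨s, θ⟩ ⟨hs, -⟩
    simp only [mem_Ioo] at hs
    rw [mem_ball, dist_zero_right, norm_circleMap_zero]
    rw [abs_of_pos hs.1]; exact hs.2
  have hcm : Continuous (fun p : ℝ × ℝ => circleMap 0 p.1 p.2) := by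
    unfold circleMap; fun_prop
  have hcont : ContinuousOn (fun p : ℝ × ℝ => F (circleMap 0 p.1 p.2))
      (Ioo (0:ℝ) ρ ×ˢ Ioo (-Real.pi) Real.pi) := hF.comp hcm.continuousOn hmaps
  have h1 : ∫⁻ p in polarCoord.target, ENNReal.ofReal p.1 •
      (ball (0:ℂ) ρ).indicator (fun w => ENNReal.ofReal (F w)) (Complex.polarCoord.symm p) =
      ∫⁻ p in Ioo (0:ℝ) ρ ×ˢ Ioo (-Real.pi) Real.pi,
        ENNReal.ofReal p.1 * ENNReal.ofReal (F (circleMap 0 p.1 p.2)) := by
    have h2 : ∀ p ∈ polarCoord.target, ENNReal.ofReal p.1 •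
        (ball (0:ℂ) ρ).indicator (fun w => ENNReal.ofReal (F w)) (Complex.polarCoord.symm p) =
        (Ioo (0:ℝ) ρ ×ˢ Ioo (-Real.pi) Real.pi).indicator
          (fun p => ENNReal.ofReal p.1 * ENNReal.ofReal (F (circleMap 0 p.1 p.2))) p := by
      rintro ⟨s, θ⟩ hp
      rw [polarCoord_target] at hp
      have hs0 : 0 < s := hp.1
      have hn : ‖Complex.polarCoord.symm (s, θ)‖ = s := by
        rw [Complex.norm_polarCoord_symm]; exact abs_of_pos hs0
      by_cases hs : s < ρ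
      · rw [indicator_of_mem (by rw [mem_ball, dist_zero_right, hn]; exact hs),
          indicator_of_mem (by exact ⟨⟨hs0, hs⟩, hp.2⟩), smul_eq_mul]
        congr 3
        rw [Complex.polarCoord_symm_apply, circleMap, zero_add, Complex.exp_mul_I]
        simp
      · rw [indicator_of_notMem (by rw [mem_ball, dist_zero_right, hn]; exact hs),
          indicator_of_notMem (by rintro ⟨h3, -⟩; exact hs h3.2), smul_zero]
    rw [setLIntegral_congr_fun polarCoord.open_target.measurableSet h2,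
      ← lintegral_indicator (measurableSet_Ioo.prod measurableSet_Ioo),
      ← lintegral_indicator polarCoord.open_target.measurableSet]
    congr 1
    funext p
    by_cases hp : p ∈ polarCoord.target
    · rw [indicator_of_mem hp]
    · rw [indicator_of_notMem hp, indicator_of_notMem]
      intro h
      exact hp ⟨h.1.1, h.2⟩
  rw [h1, Measure.volume_eq_prod, setLIntegral_prod]
  swap
  · have h2 : AEMeasurable (fun p : ℝ × ℝ => F (circleMap 0 p.1 p.2))
        ((volume : Measure (ℝ × ℝ)).restrict (Ioo (0:ℝ) ρ ×ˢ Ioo (-Real.pi) Real.pi)) :=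
      hcont.aemeasurable (measurableSet_Ioo.prod measurableSet_Ioo)
    exact (measurable_fst.ennreal_ofReal.aemeasurable).mul h2.ennreal_ofReal
  apply lintegral_congr
  intro s
  rw [lintegral_const_mul' _ _ ENNReal.ofReal_ne_top]

theorem inner_eq {h : ℂ → ℂ} {R s : ℝ} (hh : DifferentiableOn ℂ h (ball 0 R)) (hs : 0 < s)
    (hsR : s < R) :
    ∫⁻ θ in Ioo (-Real.pi) Real.pi, ENNReal.ofReal (‖h (circleMap 0 s θ)‖ ^ 2) =
      ∑' k : ℕ, ENNReal.ofReal (2 * Real.pi * ‖tc h k‖ ^ 2 * s ^ (2 * k)) := by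
  have hpi := Real.pi_pos
  have hmem : ∀ θ : ℝ, circleMap 0 s θ ∈ ball (0 : ℂ) R := by
    intro θ
    rw [mem_ball_zero_iff, norm_circleMap_zero, abs_of_pos hs]
    exact hsR
  have hc : Continuous fun θ : ℝ => ‖h (circleMap 0 s θ)‖ ^ 2 :=
    ((hh.continuousOn.comp_continuous (continuous_circleMap 0 s) hmem).norm).pow 2
  have h1 := parseval_tc hh hh hs hsR
  have h4 : ∀ z : ℂ, (starRingEnd ℂ) z * z = ((‖z‖ ^ 2 : ℝ) : ℂ) := fun z => by
    rw [Complex.sq_norm, Complex.normSq_eq_conj_mul_self]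
  simp only [h4] at h1
  have h5 : (∫ θ in (-Real.pi)..Real.pi, ((‖h (circleMap 0 s θ)‖ ^ 2 : ℝ) : ℂ)) =
      ((∫ θ in (-Real.pi)..Real.pi, ‖h (circleMap 0 s θ)‖ ^ 2 : ℝ) : ℂ) :=
    intervalIntegral.integral_ofReal
  rw [h5] at h1
  have h6 : HasSum (fun k : ℕ => 2 * Real.pi * ‖tc h k‖ ^ 2 * s ^ (2 * k))
      (∫ θ in (-Real.pi)..Real.pi, ‖h (circleMap 0 s θ)‖ ^ 2) := by
    rw [← Complex.hasSum_ofReal]
    convert! h1 using 2
    push_cast
    ring
  rw [← ENNReal.ofReal_tsum_of_nonneg (fun k => by positivity) h6.summable, h6.tsum_eq,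
    intervalIntegral.integral_of_le (by linarith), integral_Ioc_eq_integral_Ioo,
    ofReal_integral_eq_lintegral_ofReal]
  · exact (hc.integrableOn_Icc (a := -Real.pi) (b := Real.pi)).mono_set Ioo_subset_Icc_self
  · exact Filter.Eventually.of_forall fun θ => by positivity

theorem radial {a ρ : ℝ} (ha : 0 ≤ a) (hρ : 0 < ρ) (k : ℕ) :
    ∫⁻ s in Ioo (0 : ℝ) ρ, ENNReal.ofReal s * ENNReal.ofReal (a * s ^ (2 * k)) =
      ENNReal.ofReal (a * ρ ^ (2 * (k + 1)) / (2 * (k + 1))) := by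
  have h1 : ∀ s ∈ Ioo (0 : ℝ) ρ, ENNReal.ofReal s * ENNReal.ofReal (a * s ^ (2 * k)) =
      ENNReal.ofReal (a * s ^ (2 * k + 1)) := by
    intro s hs
    rw [← ENNReal.ofReal_mul hs.1.le]
    congr 1
    ring
  rw [setLIntegral_congr_fun measurableSet_Ioo h1, ← ofReal_integral_eq_lintegral_ofReal,
    ← integral_Ioc_eq_integral_Ioo, ← intervalIntegral.integral_of_le hρ.le,
    intervalIntegral.integral_const_mul, integral_pow]
  · congr 1
    rw [zero_pow (by omega), sub_zero]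
    push_cast
    rw [show 2 * k + 1 + 1 = 2 * (k + 1) by ring]
    field_simp
    ring
  · have hc : Continuous fun s : ℝ => a * s ^ (2 * k + 1) := by fun_prop
    exact (hc.integrableOn_Icc (a := 0) (b := ρ)).mono_set Ioo_subset_Icc_self
  · rw [Filter.EventuallyLE, ae_restrict_iff' measurableSet_Ioo]
    filter_upwards with s hs
    have := hs.1
    simp only [Pi.zero_apply]
    positivity

/-- The square integral over a disc. -/
theorem disc_sq {h : ℂ → ℂ} {ρ : ℝ} (hh : DifferentiableOn ℂ h (ball 0 ρ)) (hρ : 0 < ρ) :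
    ∫⁻ z in ball (0 : ℂ) ρ, ENNReal.ofReal (‖h z‖ ^ 2) =
      ∑' k : ℕ, ENNReal.ofReal (Real.pi * ‖tc h k‖ ^ 2 * ρ ^ (2 * (k + 1)) / (k + 1)) := by
  have hpi := Real.pi_pos
  rw [polar (F := fun z => ‖h z‖ ^ 2) ((hh.continuousOn.norm).pow 2)]
  have h1 : ∀ s ∈ Ioo (0 : ℝ) ρ, ENNReal.ofReal s *
      ∫⁻ θ in Ioo (-Real.pi) Real.pi, ENNReal.ofReal (‖h (circleMap 0 s θ)‖ ^ 2) =
      ∑' k : ℕ, ENNReal.ofReal s * ENNReal.ofReal (2 * Real.pi * ‖tc h k‖ ^ 2 * s ^ (2 * k)) := by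
    intro s hs
    rw [inner_eq hh hs.1 hs.2, ENNReal.tsum_mul_left]
  rw [setLIntegral_congr_fun measurableSet_Ioo h1, lintegral_tsum]
  · congr 1
    funext k
    rw [radial (by positivity) hρ]
    congr 1
    field_simp
  · intro k
    have h2 : Measurable fun s : ℝ => ENNReal.ofReal s *
      ENNReal.ofReal (2 * Real.pi * ‖tc h k‖ ^ 2 * s ^ (2 * k)) := by fun_prop
    exact h2.aemeasurable

end Pool.Agent.X151.MD
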