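import Mathlib
import Pool.Agent.X151.MH.Fam
import Pool.Agent.X151.MD.Disc

/-!
# The Dirichlet integral of the velocity of a holomorphic family of univalent functions
-/

set_option autoImplicit false

open Complex Topology Filter Metric MeasureTheory Set Polynomial

namespace Pool.Agent.X151.MD

open Pool.Agent.H713R2 Pool.Agent.H713R2.AR Pool.Agent.X151.MH

/-- The coefficients. -/
noncomputable def Bc (g : ℂ → ℂ → ℂ) (w : ℕ → ℂ) (N : ℕ) (t : ℂ) (j : ℕ) : ℂ :=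
  ∑ n ∈ Finset.range N, w n * hb (pc (g t)) (n + 1) (n + 1 + (j + 1))

theorem Bc_diff {g : ℂ → ℂ → ℂ}
    (hhol : ∀ n j, DifferentiableOn ℂ (fun t => pc (g t) n j) (ball 0 1))
    (w : ℕ → ℂ) (N j : ℕ) : DifferentiableOn ℂ (fun t => Bc g w N t j) (ball 0 1) := by
  unfold Bc
  apply DifferentiableOn.fun_sum
  intro n _
  exact (hb_differentiableOn hhol (n + 1) (n + 1 + (j + 1))).const_mul _

/-- The bound for the derivatives of the coefficients. -/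
theorem sum_deriv_le {R ρ : ℝ} (hρ : 0 < ρ) (hρR : ρ < R) {g : ℂ → ℂ → ℂ}
    (hg : ∀ t ∈ ball (0 : ℂ) 1, IsExt R (g t))
    (hhol : ∀ n j, DifferentiableOn ℂ (fun t => pc (g t) n j) (ball 0 1))
    (w : ℕ → ℂ) (N J : ℕ) :
    ∑ j ∈ Finset.range J, (((j : ℝ) + 1) * ρ ^ (2 * (j + 1))) *
      ‖deriv (fun t => Bc g w N t j) 0‖ ^ 2 ≤
      1 / Real.pi * ∫ z in (UU (g 0) ρ)ᶜ, ‖(derivative (Qc (g 0) w N)).eval z‖ ^ 2 := by
  have h0 : (0 : ℂ) ∈ ball (0 : ℂ) 1 := mem_ball_self one_pos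
  set M : ℝ := 1 / Real.pi * ∫ z in (UU (g 0) ρ)ᶜ, ‖(derivative (Qc (g 0) w N)).eval z‖ ^ 2 with hM
  set Cc : ℝ := ∑ n ∈ Finset.range N, ((n : ℝ) + 1) * (ρ ^ (2 * (n + 1)))⁻¹ * ‖w n‖ ^ 2 with hCc
  have hsum : HasSum (fun j : ℕ => ((j : ℝ) + 1) * ρ ^ (2 * (j + 1)) * ‖Bc g w N 0 j‖ ^ 2)
    (Cc - M) := area_comb hρ hρR (hg 0 h0) w N
  have key : ∀ J' ≥ J, ∑ j ∈ Finset.range J, (((j : ℝ) + 1) * ρ ^ (2 * (j + 1))) *
      ‖deriv (fun t => Bc g w N t j) 0‖ ^ 2 ≤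
      Cc - ∑ j ∈ Finset.range J', (((j : ℝ) + 1) * ρ ^ (2 * (j + 1))) * ‖Bc g w N 0 j‖ ^ 2 := by
    intro J' hJ
    have havg := average (p := fun j => ((j : ℝ) + 1) * ρ ^ (2 * (j + 1)))
      (q := fun n => ((n : ℝ) + 1) * (ρ ^ (2 * (n + 1)))⁻¹) (J := J') (N := N)
      (fun j => by positivity) (fun j => Bc_diff hhol w N j) (α := w) (η := fun _ => 0)
      (fun t ht => by
        simp only [mul_zero, add_zero]
        exact area_ineq hρ hρR (hg t ht) w N J')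
    simp only [norm_zero, ne_eq, OfNat.ofNat_ne_zero, not_false_eq_true, zero_pow,
      add_zero] at havg
    have e1 : ∀ j ∈ Finset.range J', (((j : ℝ) + 1) * ρ ^ (2 * (j + 1))) *
        (‖Bc g w N 0 j‖ ^ 2 + ‖deriv (fun t => Bc g w N t j) 0‖ ^ 2) =
        (((j : ℝ) + 1) * ρ ^ (2 * (j + 1))) * ‖Bc g w N 0 j‖ ^ 2 +
        (((j : ℝ) + 1) * ρ ^ (2 * (j + 1))) * ‖deriv (fun t => Bc g w N t j) 0‖ ^ 2 :=
      fun j _ => mul_add _ _ _
    rw [Finset.sum_congr rfl e1, Finset.sum_add_distrib] at havg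
    have h1 : ∑ j ∈ Finset.range J, (((j : ℝ) + 1) * ρ ^ (2 * (j + 1))) *
        ‖deriv (fun t => Bc g w N t j) 0‖ ^ 2 ≤ ∑ j ∈ Finset.range J', (((j : ℝ) + 1) *
        ρ ^ (2 * (j + 1))) * ‖deriv (fun t => Bc g w N t j) 0‖ ^ 2 :=
      Finset.sum_le_sum_of_subset_of_nonneg (Finset.range_mono hJ) fun j _ _ => by positivity
    linarith
  have h1 := (hsum.tendsto_sum_nat).const_sub Cc
  rw [sub_sub_cancel] at h1
  refine ge_of_tendsto h1 ?_
  filter_upwards [eventually_ge_atTop J] with J' hJ' using key J' hJ'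

/-- The expansion of a combination of Faber polynomials along the exterior map. -/
theorem hasSum_Q {R : ℝ} {g : ℂ → ℂ} (hR : 0 < R) (hg : IsExt R g) (w : ℕ → ℂ) (N : ℕ) {x : ℂ}
    (hx : x ∈ ball (0 : ℂ) R) (hx0 : x ≠ 0) :
    HasSum (fun j : ℕ => (∑ n ∈ Finset.range N, w n * hb (pc g) (n + 1) (n + 1 + (j + 1))) *
      x ^ (j + 1)) ((Qc g w N).eval (x⁻¹ * g x) - ∑ n ∈ Finset.range N, w n * (x ^ (n + 1))⁻¹) := by
  have ha := pc_zero hg
  have h1 : ∀ n, HasSum (fun j : ℕ => w n * hb (pc g) (n + 1) (n + 1 + (j + 1)) * x ^ (j + 1))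
      (w n * (Fb (pc g) (n + 1)).eval (x⁻¹ * g x) - w n * (x ^ (n + 1))⁻¹) := by
    intro n
    have h2 := hasSum_tc (Hb_diff hg.diff (pc g) (n + 1)) hx
    rw [Hb_tc hR hg.diff, Hb_eval g _ hx0] at h2
    rw [← hasSum_nat_add_iff' (n + 1 + 1), Finset.sum_eq_single 0] at h2
    · have h3 := (h2.mul_left ((x ^ (n + 1))⁻¹)).mul_left (w n)
      rw [hb_zero ha, one_mul, pow_zero, mul_sub, ← mul_assoc,
        inv_mul_cancel₀ (pow_ne_zero _ hx0), one_mul, mul_one, mul_sub] at h3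
      convert! h3 using 1
      funext j
      rw [show j + (n + 1 + 1) = n + 1 + (j + 1) by ring, pow_add x (n + 1) (j + 1)]
      have := pow_ne_zero (n + 1) hx0
      field_simp
    · intro k hk hk0
      have hk' := Finset.mem_range.mp hk
      rw [hb_vanish ha (n + 1) k (by omega) (by omega), zero_mul]
    · intro h
      exact absurd (Finset.mem_range.mpr (by omega)) h
  have h2 := hasSum_sum (s := Finset.range N) (fun n _ => h1 n)
  rw [Finset.sum_sub_distrib] at h2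
  convert! h2 using 1
  · funext j
    rw [Finset.sum_mul]
  · rw [Qc, eval_finsetSum]
    simp only [eval_mul, eval_C]

/-- The derivative with respect to the parameter. -/
theorem hasSum_deriv {R ρ : ℝ} (hρ : 0 < ρ) (hρR : ρ < R) {g : ℂ → ℂ → ℂ}
    (hg : ∀ t ∈ ball (0 : ℂ) 1, IsExt R (g t))
    (hhol : ∀ n j, DifferentiableOn ℂ (fun t => pc (g t) n j) (ball 0 1))
    (w : ℕ → ℂ) (N : ℕ) {x : ℂ} (hx : ‖x‖ < ρ) (hx0 : x ≠ 0) :
    HasSum (fun j : ℕ => deriv (fun t => Bc g w N t j) 0 * x ^ (j + 1))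
      (deriv (fun t => (Qc (g t) w N).eval (x⁻¹ * g t x)) 0) := by
  have h0 : (0 : ℂ) ∈ ball (0 : ℂ) 1 := mem_ball_self one_pos
  have hR : 0 < R := hρ.trans hρR
  have hxR : x ∈ ball (0 : ℂ) R := by rw [mem_ball_zero_iff]; linarith
  set Cc : ℝ := ∑ n ∈ Finset.range N, ((n : ℝ) + 1) * (ρ ^ (2 * (n + 1)))⁻¹ * ‖w n‖ ^ 2 with hCc
  have hCc0 : 0 ≤ Cc := Finset.sum_nonneg fun n _ => by positivity
  -- the bound of the coefficients
  have hB : ∀ t ∈ ball (0 : ℂ) 1, ∀ j, ‖Bc g w N t j‖ ≤ √Cc * (ρ ^ (j + 1))⁻¹ := by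
    intro t ht j
    have h1 := area_ineq hρ hρR (hg t ht) w N (j + 1)
    have h2 := Finset.single_le_sum (f := fun j : ℕ => ((j : ℝ) + 1) * ρ ^ (2 * (j + 1)) *
      ‖∑ n ∈ Finset.range N, w n * hb (pc (g t)) (n + 1) (n + 1 + (j + 1))‖ ^ 2)
      (fun j _ => by positivity) (Finset.mem_range.mpr (Nat.lt_succ_self j))
    have h3 : ((j : ℝ) + 1) * ρ ^ (2 * (j + 1)) * ‖Bc g w N t j‖ ^ 2 ≤ Cc := h2.trans h1
    have h4 : (ρ ^ (j + 1) * ‖Bc g w N t j‖) ^ 2 ≤ Cc := by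
      refine le_trans ?_ h3
      have h5 : (1 : ℝ) ≤ (j : ℝ) + 1 := by
        have : (0 : ℝ) ≤ j := Nat.cast_nonneg j
        linarith
      have h6 : 0 ≤ ρ ^ (2 * (j + 1)) * ‖Bc g w N t j‖ ^ 2 := by positivity
      calc (ρ ^ (j + 1) * ‖Bc g w N t j‖) ^ 2 = 1 * (ρ ^ (2 * (j + 1)) * ‖Bc g w N t j‖ ^ 2) := by
            ring
        _ ≤ ((j : ℝ) + 1) * (ρ ^ (2 * (j + 1)) * ‖Bc g w N t j‖ ^ 2) :=
            mul_le_mul_of_nonneg_right h5 h6
        _ = _ := by ring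
    have h5 := Real.le_sqrt_of_sq_le h4
    rw [← div_eq_mul_inv, le_div_iff₀ (by positivity), mul_comm]
    exact h5
  set u : ℕ → ℝ := fun j => √Cc * (‖x‖ / ρ) ^ (j + 1) with hu
  have hus : Summable u := by
    apply Summable.mul_left
    have h1 : ‖x‖ / ρ < 1 := by rw [div_lt_one hρ]; exact hx
    exact (summable_nat_add_iff 1).mpr (summable_geometric_of_lt_one (by positivity) h1)
  have h1 := Complex.hasSum_deriv_of_summable_norm (F := fun j t => Bc g w N t j * x ^ (j + 1))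
    hus (fun j => (Bc_diff hhol w N j).mul_const _) isOpen_ball (fun j t ht => by
      rw [norm_mul, norm_pow, hu]
      have h2 := mul_le_mul_of_nonneg_right (hB t ht j) (by positivity : (0:ℝ) ≤ ‖x‖ ^ (j + 1))
      refine h2.trans (le_of_eq ?_)
      show _ = √Cc * (‖x‖ / ρ) ^ (j + 1)
      rw [div_pow]
      field_simp) h0
  have h2 : ∀ j : ℕ, deriv (fun t => Bc g w N t j * x ^ (j + 1)) 0 =
      deriv (fun t => Bc g w N t j) 0 * x ^ (j + 1) := fun j =>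
    deriv_mul_const ((Bc_diff hhol w N j).differentiableAt (isOpen_ball.mem_nhds h0)) _
  simp only [h2] at h1
  have h3 : (fun t => ∑' j, Bc g w N t j * x ^ (j + 1)) =ᶠ[𝓝 0]
      fun t => (Qc (g t) w N).eval (x⁻¹ * g t x) - ∑ n ∈ Finset.range N, w n * (x ^ (n + 1))⁻¹ := by
    filter_upwards [isOpen_ball.mem_nhds h0] with t ht
    exact (hasSum_Q hR (hg t ht) w N hxR hx0).tsum_eq
  rw [h3.deriv_eq, deriv_sub_const] at h1
  exact h1

end Pool.Agent.X151.MD
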