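import Mathlib
import Pool.Agent.X151.MD.Fam
import Pool.Agent.X151.MH.Dyn
import Pool.Agent.X151.MA.Max
import Pool.Agent.Helper859.Br.A2

/-!
# The Dirichlet integral of the velocity, at a finite level
-/

set_option autoImplicit false

open Complex Topology Filter Metric MeasureTheory Set Polynomial N62a1eb23

namespace Pool.Agent.X151.MD

open Pool.Agent.H713R2 Pool.Agent.H712R2 Pool.Agent.H713R2.AR Pool.Agent.X151.MH
open Pool.Agent.W746.LD (orb S hasDerivAt_orb orb_succ orb_zero P_eq_orb)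
open Pool.Agent.X151.MU Pool.Agent.X151.MA

theorem diff_of_hasSum {a : ℕ → ℂ} {F : ℂ → ℂ} {ρ : ℝ}
    (h : ∀ x ∈ ball (0 : ℂ) ρ, HasSum (fun k => a k * x ^ k) (F x)) :
    DifferentiableOn ℂ F (ball 0 ρ) := by
  intro x₀ hx₀
  rw [mem_ball_zero_iff] at hx₀
  obtain ⟨s, hs1, hs2⟩ := exists_between hx₀
  have hs0 : 0 < s := (norm_nonneg _).trans_lt hs1
  have hsm : Summable fun k => ‖a k‖ * s ^ k := by
    have h1 := (h (s : ℂ) (by
      rw [mem_ball_zero_iff, Complex.norm_real, Real.norm_eq_abs, abs_of_pos hs0]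
      exact hs2)).summable.norm
    refine h1.congr fun k => ?_
    rw [norm_mul, norm_pow, Complex.norm_real, Real.norm_eq_abs, abs_of_pos hs0]
  have h2 : DifferentiableOn ℂ (fun x : ℂ => ∑' k, a k * x ^ k) (ball 0 s) :=
    differentiableOn_tsum_of_summable_norm hsm (fun k => by fun_prop) isOpen_ball
      (fun k x hx => by
        rw [norm_mul, norm_pow]
        rw [mem_ball_zero_iff] at hx
        gcongr)
  have hxs : x₀ ∈ ball (0 : ℂ) s := mem_ball_zero_iff.mpr hs1
  have h3 : F =ᶠ[𝓝 x₀] fun x : ℂ => ∑' k, a k * x ^ k := by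
    filter_upwards [isOpen_ball.mem_nhds hxs] with x hx
    rw [mem_ball_zero_iff] at hx
    exact (h x (by rw [mem_ball_zero_iff]; linarith)).tsum_eq.symm
  exact ((h2.differentiableAt (isOpen_ball.mem_nhds hxs)).congr_of_eventuallyEq
    h3).differentiableWithinAt

variable {n : ℕ}

/-- The Dirichlet integral at level `j`. -/
theorem level_dir (hn : 2 ≤ n) {p : ℂ[X]} (hp : p.natDegree + 2 ≤ n) {c : ℂ} {r : ℝ} (hr : 0 < r)
    (hsub : ball c r ⊆ multibrotSet n) (j : ℕ) :
    ENNReal.ofReal (r ^ 2) * ∫⁻ z in (EE n c j)ᶜ,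
      ENNReal.ofReal (‖deriv (fun z => p.eval z * (1 - S n c z (j + 1))) z‖ ^ 2) ≤
      ENNReal.ofReal (∫ z in EE n c j, ‖p.eval z‖ ^ 2) := by
  obtain ⟨G, hG⟩ := exists_seq hn
  have hpi := Real.pi_pos
  have h0 : (0 : ℂ) ∈ ball (0 : ℂ) 1 := mem_ball_self one_pos
  have hcM : c ∈ multibrotSet n := hsub (mem_ball_self hr)
  have hrC : (r : ℂ) ≠ 0 := by exact_mod_cast hr.ne'
  set γ : ℂ → ℂ := fun t => c + r * t with hγdef
  have hγ0 : γ 0 = c := by simp [hγdef]
  have hγ : Differentiable ℂ γ := by rw [hγdef]; fun_prop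
  have hγm : ∀ t ∈ ball (0 : ℂ) 1, γ t ∈ ball c r := fun t ht => scaled_ball hr ht
  have hB : ∀ t ∈ ball (0 : ℂ) 1, Bd n (γ t) := fun t ht =>
    (mem_multibrot_iff hn _).mp (hsub (hγm t ht))
  have hcB : Bd n c := by have := hB 0 h0; rwa [hγ0] at this
  set R : ℝ := rad n j with hR
  set ρ : ℝ := rho n j with hρdef
  have hρ : 0 < ρ := rho_pos n j
  have hρR : ρ < R := rho_lt hn j
  set g : ℂ → ℂ → ℂ := fun t x => G j (γ t, x) with hg
  have hext : ∀ t ∈ ball (0 : ℂ) 1, IsExt R (g t) := fun t ht => isExt_seq hn hG j (hB t ht)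
  have hhol : ∀ a b, DifferentiableOn ℂ (fun t => pc (g t) a b) (ball 0 1) := fun a b =>
    pc_holo hn hG hγ.differentiableOn hB j a b
  set w : ℕ → ℂ := fun m => p.coeff m / (m + 1) with hw
  set N : ℕ := n - 1 with hN
  -- the polynomial does not depend on the parameter
  set Q : ℂ[X] := ∑ m ∈ Finset.range N, C (w m) * X ^ (m + 1) with hQ
  have hQc : ∀ t ∈ ball (0 : ℂ) 1, Qc (g t) w N = Q := by
    intro t ht
    rw [Qc, hQ]
    apply Finset.sum_congr rfl
    intro m hm
    have := Finset.mem_range.mp hm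
    rw [hg]
    simp only
    rw [Fb_low hn hG j (hB t ht) (by omega)]
  have hQd : derivative Q = p := by
    rw [← hQc 0 h0]
    exact derivative_Qc hn hG j (hB 0 h0) hp
  -- the exterior map
  set Ψ : ℂ → ℂ := fun x => x⁻¹ * g 0 x with hΨ
  set s : Set ℂ := {x | x ≠ 0 ∧ ‖x‖ < ρ} with hs
  have hsop : IsOpen s := isOpen_ne.inter (isOpen_lt continuous_norm continuous_const)
  have hΨd : DifferentiableOn ℂ Ψ s := by
    intro x hx
    have hxb : x ∈ ball (0 : ℂ) R := by
      rw [mem_ball_zero_iff]; exact hx.2.trans hρR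
    exact ((differentiableAt_inv hx.1).mul ((hext 0 h0).diff.differentiableAt
      (isOpen_ball.mem_nhds hxb))).differentiableWithinAt
  have hΨi : InjOn Ψ s := by
    intro x hx y hy hxy
    exact (hext 0 h0).inj x (by rw [mem_ball_zero_iff]; exact hx.2.trans hρR) y
      (by rw [mem_ball_zero_iff]; exact hy.2.trans hρR) hx.1 hy.1 hxy
  have himg : Ψ '' s = (EE n c j)ᶜ := by
    have h1 := compl_UU_eq hn hG j hcB
    rw [← h1, compl_compl]
    simp only [hΨ, hg, hγ0, UU, hs, hρdef]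
  have hbig : ∀ x ∈ s, 2 < ‖orb n c (Ψ x) j‖ := by
    intro x hx
    have h1 : Ψ x ∈ (EE n c j)ᶜ := by rw [← himg]; exact mem_image_of_mem _ hx
    have h2 : ¬ ‖orb n c (Ψ x) j‖ ≤ 3 := h1
    linarith
  -- the velocity
  set v : ℂ → ℂ := fun z => 1 - S n c z (j + 1) with hv
  have hvel : ∀ x ∈ s, deriv (fun t => (Qc (g t) w N).eval (x⁻¹ * g t x)) 0 =
      r * (p.eval (Ψ x) * v (Ψ x)) := by
    intro x hx
    have hxR : x ∈ ball (0 : ℂ) R := by
      rw [mem_ball_zero_iff]; exact hx.2.trans hρR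
    have hAA : ∀ t ∈ ball c r, (t, x) ∈ AA n j := fun t ht =>
      mem_AA_of_Bd hn ((mem_multibrot_iff hn _).mp (hsub ht)) hxR
    set β : ℂ → ℂ := fun t => x⁻¹ * G j (t, x) with hβ
    have h1 : DifferentiableOn ℂ β (ball c r) := fun t ht =>
      ((seq_diff_param hn hG j t x (hAA t ht)).const_mul _).differentiableWithinAt
    have h2 : β c = Ψ x := by simp only [hβ, hΨ, hg, hγ0]
    have h3 : ∀ t ∈ ball c r, orb n t (β t) j = orb n c (Ψ x) j := by
      intro t ht
      have h4 := (hG.isG j).conj t x (hAA t ht) hx.1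
      have h5 := (hG.isG j).conj c x (hAA c (mem_ball_self hr)) hx.1
      rw [← fc_iter_eq, ← fc_iter_eq, ← h2, hβ]
      simp only
      rw [h4, h5]
    have h4 := deriv_motion hn hr hsub (hbig x hx) h1 h2 h3
    have h5 : HasDerivAt γ r 0 := by
      simpa [hγdef] using ((hasDerivAt_id (0 : ℂ)).const_mul (r : ℂ)).const_add c
    have h6 : HasDerivAt β (v (Ψ x)) (γ 0) := by rw [hγ0]; exact h4
    have h7 : HasDerivAt (fun t => β (γ t)) (v (Ψ x) * r) 0 := h6.comp 0 h5
    have h8 : HasDerivAt (fun t => Q.eval (β (γ t))) (p.eval (Ψ x) * (v (Ψ x) * r)) 0 := by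
      have h9 := Q.hasDerivAt (β (γ 0))
      rw [hQd, hγ0, h2] at h9
      have h10 : HasDerivAt (fun z => Q.eval z) (p.eval (Ψ x)) (β (γ 0)) := by
        rw [hγ0, h2]; exact h9
      exact h10.comp 0 h7
    have h9 : (fun t => (Qc (g t) w N).eval (x⁻¹ * g t x)) =ᶠ[𝓝 0] fun t => Q.eval (β (γ t)) := by
      filter_upwards [isOpen_ball.mem_nhds h0] with t ht
      rw [hQc t ht]
    rw [h9.deriv_eq, h8.deriv]
    ring
  -- the holomorphic function on the disc
  set a : ℕ → ℂ := fun k => if k = 0 then 0 else deriv (fun t => Bc g w N t (k - 1)) 0 with ha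
  set F : ℂ → ℂ := fun x => if x = 0 then 0 else r * (p.eval (Ψ x) * v (Ψ x)) with hF
  have hsumF : ∀ x ∈ ball (0 : ℂ) ρ, HasSum (fun k => a k * x ^ k) (F x) := by
    intro x hx
    rw [mem_ball_zero_iff] at hx
    rw [← hasSum_nat_add_iff' 1, Finset.sum_range_one]
    have ha0 : a 0 = 0 := by simp [ha]
    have ha1 : ∀ k, a (k + 1) = deriv (fun t => Bc g w N t k) 0 := fun k => by
      simp [ha]
    simp only [ha0, ha1, zero_mul, sub_zero]
    by_cases hx0 : x = 0
    · rw [hx0]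
      have : F 0 = 0 := by simp [hF]
      rw [this]
      have h1 : (fun k : ℕ => deriv (fun t => Bc g w N t k) 0 * (0 : ℂ) ^ (k + 1)) = fun _ => 0 := by
        funext k
        rw [zero_pow (by omega), mul_zero]
      rw [h1]
      exact hasSum_zero
    · have h1 := hasSum_deriv hρ hρR hext hhol w N hx hx0
      rw [hvel x ⟨hx0, hx⟩] at h1
      have h2 : F x = r * (p.eval (Ψ x) * v (Ψ x)) := by simp only [hF]; rw [if_neg hx0]
      rw [h2]
      exact h1
  have hFd := diff_of_hasSum hsumF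
  have htc : a = tc F := tc_unique hρ hFd (by
    filter_upwards [ball_mem_nhds (0 : ℂ) hρ] with x hx using hsumF x hx)
  have hdisc := disc_sq (hFd.deriv isOpen_ball) hρ
  -- the bound of the sum
  have hbound : ∫⁻ x in ball (0 : ℂ) ρ, ENNReal.ofReal (‖deriv F x‖ ^ 2) ≤
      ENNReal.ofReal (∫ z in EE n c j, ‖p.eval z‖ ^ 2) := by
    rw [hdisc]
    apply ENNReal.tsum_le_of_sum_range_le
    intro J
    rw [← ENNReal.ofReal_sum_of_nonneg (fun k _ => by positivity)]
    apply ENNReal.ofReal_le_ofReal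
    have h1 := sum_deriv_le hρ hρR hext hhol w N J
    rw [hQc 0 h0, hQd] at h1
    have h2 : (UU (g 0) ρ)ᶜ = EE n c j := by
      rw [← compl_UU_eq hn hG j hcB]
      simp only [hg, hγ0]
      rfl
    rw [h2] at h1
    have h3 : ∑ k ∈ Finset.range J, Real.pi * ‖tc (deriv F) k‖ ^ 2 * ρ ^ (2 * (k + 1)) / (k + 1) =
        Real.pi * ∑ j ∈ Finset.range J, (((j : ℝ) + 1) * ρ ^ (2 * (j + 1))) *
          ‖deriv (fun t => Bc g w N t j) 0‖ ^ 2 := by
      rw [Finset.mul_sum]
      apply Finset.sum_congr rfl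
      intro k _
      rw [tc_deriv, ← htc]
      have h4 : a (k + 1) = deriv (fun t => Bc g w N t k) 0 := by simp [ha]
      have h5 : ‖(k : ℂ) + 1‖ = (k : ℝ) + 1 := by
        have : ((k : ℂ) + 1) = (((k : ℝ) + 1 : ℝ) : ℂ) := by push_cast; ring
        rw [this, Complex.norm_real, Real.norm_eq_abs, abs_of_pos (by positivity)]
      rw [norm_mul, h5, h4]
      field_simp
    rw [h3]
    calc Real.pi * _ ≤ Real.pi * (1 / Real.pi * ∫ z in EE n c j, ‖p.eval z‖ ^ 2) :=
          mul_le_mul_of_nonneg_left h1 hpi.le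
      _ = _ := by field_simp
  refine le_trans ?_ hbound
  -- the change of variables
  have hcv := Pool.Agent.Helper859.Br.A2.cv hsop hΨd hΨi hsop.measurableSet (Subset.refl s)
    (fun z => ENNReal.ofReal (‖deriv (fun z => p.eval z * (1 - S n c z (j + 1))) z‖ ^ 2))
  rw [himg] at hcv
  rw [hcv, ← lintegral_const_mul' _ _ ENNReal.ofReal_ne_top]
  have hss : s ⊆ ball 0 ρ := fun x hx => mem_ball_zero_iff.mpr hx.2
  refine le_trans ?_ (lintegral_mono_set hss)
  apply setLIntegral_mono' hsop.measurableSet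
  intro x hx
  rw [← ENNReal.ofReal_mul (by positivity), ← ENNReal.ofReal_mul (by positivity)]
  apply ENNReal.ofReal_le_ofReal
  apply le_of_eq
  have h1 : HasDerivAt Ψ (deriv Ψ x) x := (hΨd.differentiableAt (hsop.mem_nhds hx)).hasDerivAt
  have h2 : DifferentiableAt ℂ (fun z => p.eval z * (1 - S n c z (j + 1))) (Ψ x) := by
    apply DifferentiableAt.mul p.differentiable.differentiableAt
    apply DifferentiableAt.const_sub
    exact Pool.Agent.W746.LD.differentiableAt_S (j + 1) fun i _ =>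
      Pool.Agent.W746.LD.P_ne_zero hn fun m hm => orb_ne_of_big hn hcM (hbig x hx) m (by omega)
  have h3 := (h2.hasDerivAt.comp x h1).const_mul (r : ℂ)
  have h4 : F =ᶠ[𝓝 x] fun x => (r : ℂ) * ((fun z => p.eval z * (1 - S n c z (j + 1))) ∘ Ψ) x := by
    filter_upwards [hsop.mem_nhds hx] with y hy
    simp only [hF]
    rw [if_neg hy.1]
    rfl
  rw [h4.deriv_eq, h3.deriv, norm_mul, norm_mul, Complex.norm_real, Real.norm_eq_abs,
    abs_of_pos hr]
  ring

end Pool.Agent.X151.MD
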