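import Mathlib
import Pool.Agent.X151.MD.Level

/-!
# The Dirichlet integral of the velocity of the escaping points
-/

set_option autoImplicit false

open Complex Topology Filter Metric MeasureTheory Set Polynomial N62a1eb23

namespace Pool.Agent.X151.MD

open Pool.Agent.H713R2 Pool.Agent.H712R2 Pool.Agent.H713R2.AR Pool.Agent.X151.MH
open Pool.Agent.W746.LD (orb S hasDerivAt_orb orb_succ orb_zero P_eq_orb)
open Pool.Agent.X151.MU Pool.Agent.X151.MA

variable {n : ℕ}

/-- The velocity near an escaping point. -/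
theorem deriv_V (hn : 2 ≤ n) {c : ℂ} (hc : c ∈ multibrotSet n) {z : ℂ} (hz : Esc n c z) :
    DifferentiableAt ℂ (V n c) z ∧
    Tendsto (fun j => deriv (fun w => 1 - S n c w (j + 1)) z) atTop (𝓝 (deriv (V n c) z)) := by
  have hc2 : ‖c‖ ≤ 2 := norm_le_two_of_sub hn hc
  obtain ⟨m, hm⟩ := (eventually_big hz 3).exists
  have hcont : ∀ k, Continuous fun w => orb n c w k := fun k =>
    continuous_iff_continuousAt.mpr fun w => (hasDerivAt_orb w k).continuousAt
  set U : Set ℂ := {w | 3 < ‖orb n c w m‖} with hU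
  have hUo : IsOpen U := isOpen_lt continuous_const (hcont m).norm
  have hPne : ∀ w ∈ U, ∀ k, Pool.Agent.W746.LD.P n c w k ≠ 0 := by
    intro w hw k
    apply Pool.Agent.W746.LD.P_ne_zero hn
    intro i _
    have h1 : Esc n c w := by
      have h2 : Esc n c (orb n c w m) := by
        unfold Esc
        have h3 : Tendsto (fun k => ‖orb n c (orb n c w m) k‖) atTop atTop := by
          have h4 : ∀ k, (2 : ℝ) ^ k * 3 < ‖orb n c (orb n c w m) k‖ := by
            intro k
            induction k with
            | zero =>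
              rw [pow_zero, one_mul]
              exact hw
            | succ k ih =>
              have h1 : (1 : ℝ) ≤ 2 ^ k := one_le_pow₀ (by norm_num)
              have h5 := fc_grow hn hc2 (w := orb n c (orb n c w m) k) (by linarith)
              have h6 : fc n c (orb n c (orb n c w m) k) = orb n c (orb n c w m) (k + 1) := by
                rw [orb_succ]; rfl
              rw [h6] at h5
              rw [pow_succ]
              linarith
          apply tendsto_atTop_mono (f := fun k : ℕ => (2 : ℝ) ^ k)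
          · intro k
            have := h4 k
            have h2 : (0 : ℝ) < 2 ^ k := by positivity
            linarith
          · exact tendsto_pow_atTop_atTop_of_one_lt (by norm_num)
        exact tendsto_norm_atTop_iff_cobounded.mp h3
      unfold Esc at h2 ⊢
      have h3 : (fun k => orb n c (orb n c w m) k) = fun k => orb n c w (k + m) := by
        funext k
        rw [← Pool.Agent.W746.LD.orb_add, add_comm]
      rw [h3] at h2
      exact (tendsto_add_atTop_iff_nat m).mp h2
    exact esc_ne_zero hn hc h1 i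
  -- the terms
  set T : ℕ → ℂ → ℂ := fun k w => (Pool.Agent.W746.LD.P n c w k)⁻¹ with hT
  have hTd : ∀ k, DifferentiableOn ℂ (T k) U := fun k w hw =>
    ((Pool.Agent.W746.LD.differentiable_P k w).inv (hPne w hw k)).differentiableWithinAt
  -- a bound near z
  obtain ⟨δ, hδ, hδU⟩ := Metric.isOpen_iff.mp hUo z hm
  set B : Set ℂ := ball z (δ / 2) with hB
  have hBU : closedBall z (δ / 2) ⊆ U := (closedBall_subset_ball (by linarith)).trans hδU
  obtain ⟨M, hM⟩ := (isCompact_closedBall z (δ / 2)).exists_bound_of_continuousOn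
    ((hTd m).continuousOn.mono hBU)
  have hM0 : 0 ≤ M := (norm_nonneg _).trans (hM z (mem_closedBall_self (by linarith)))
  have hgeo : ∀ k, ∀ w ∈ B, ‖T (k + m) w‖ ≤ M * (1 / 6) ^ k := by
    intro k w hw
    have hwc : w ∈ closedBall z (δ / 2) := ball_subset_closedBall hw
    induction k with
    | zero => simpa using hM w hwc
    | succ k ih =>
      have h1 : 3 ≤ ‖orb n c w (k + m)‖ := by
        rw [add_comm k m, Pool.Agent.W746.LD.orb_add]
        exact orb_big hn hc2 (le_of_lt (hBU hwc)) k
      have h2 := P_step hn h1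
      rw [show k + 1 + m = k + m + 1 by ring, pow_succ]
      have h3 : ‖T (k + m + 1) w‖ ≤ 1 / 6 * ‖T (k + m) w‖ := h2
      linarith
  have hBo : IsOpen B := isOpen_ball
  have hzB : z ∈ B := mem_ball_self (by linarith)
  have hTdB : ∀ k, DifferentiableOn ℂ (T k) B := fun k =>
    (hTd k).mono (ball_subset_closedBall.trans hBU)
  have hsu : Summable fun k : ℕ => M * (1 / 6 : ℝ) ^ k :=
    (summable_geometric_of_lt_one (by norm_num) (by norm_num)).mul_left M
  have h1 := Complex.hasSum_deriv_of_summable_norm (F := fun k w => T (k + m) w) hsu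
    (fun k => hTdB (k + m)) hBo hgeo hzB
  have h2 : DifferentiableOn ℂ (fun w => ∑' k, T (k + m) w) B :=
    differentiableOn_tsum_of_summable_norm hsu (fun k => hTdB (k + m)) hBo hgeo
  have hfin : ∀ j, DifferentiableAt ℂ (fun w => ∑ k ∈ Finset.range j, T k w) z := fun j =>
    DifferentiableAt.fun_sum fun k _ => (hTdB k).differentiableAt (hBo.mem_nhds hzB)
  have hV : V n c =ᶠ[𝓝 z] fun w => 1 - (∑ k ∈ Finset.range m, T k w + ∑' k, T (k + m) w) := by
    filter_upwards [hBo.mem_nhds hzB] with w hw
    unfold V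
    congr 1
    have h3 : Summable fun k => T k w := by
      rw [← summable_nat_add_iff m]
      exact Summable.of_norm_bounded hsu fun k => hgeo k w hw
    exact (h3.sum_add_tsum_nat_add m).symm
  have hd1 : DifferentiableAt ℂ (fun w => ∑' k, T (k + m) w) z :=
    h2.differentiableAt (hBo.mem_nhds hzB)
  have hVd : DifferentiableAt ℂ (V n c) z :=
    (((hfin m).add hd1).const_sub 1).congr_of_eventuallyEq hV
  refine ⟨hVd, ?_⟩
  have hVder : deriv (V n c) z = -(deriv (fun w => ∑ k ∈ Finset.range m, T k w) z +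
      deriv (fun w => ∑' k, T (k + m) w) z) := by
    rw [hV.deriv_eq, deriv_const_sub]
    congr 1
    exact deriv_fun_add (hfin m) hd1
  rw [hVder, ← tendsto_add_atTop_iff_nat m]
  have h5 := ((h1.tendsto_sum_nat.const_add
    (deriv (fun w => ∑ k ∈ Finset.range m, T k w) z)).neg).comp (tendsto_add_atTop_nat 1)
  refine h5.congr fun j => ?_
  simp only [Function.comp]
  have h6 : (fun w => 1 - S n c w (j + m + 1)) = fun w => 1 - (∑ k ∈ Finset.range m, T k w +
      ∑ k ∈ Finset.range (j + 1), T (k + m) w) := by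
    funext w
    congr 1
    unfold Pool.Agent.W746.LD.S
    rw [show j + m + 1 = m + (j + 1) by ring, Finset.sum_range_add]
    congr 1
    apply Finset.sum_congr rfl
    intro k _
    rw [hT]
    simp only
    rw [add_comm]
  have h7 : ∀ k ∈ Finset.range (j + 1), DifferentiableAt ℂ (fun w => T (k + m) w) z := fun k _ =>
    (hTdB (k + m)).differentiableAt (hBo.mem_nhds hzB)
  rw [h6, deriv_const_sub]
  congr 1
  rw [deriv_fun_add (hfin m) (DifferentiableAt.fun_sum h7), deriv_fun_sum h7]

/-- The Dirichlet integral. -/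
theorem dir (hn : 2 ≤ n) {p : ℂ[X]} (hp : p.natDegree + 2 ≤ n) {c : ℂ} {r : ℝ} (hr : 0 < r)
    (hsub : ball c r ⊆ multibrotSet n) :
    ENNReal.ofReal (r ^ 2) * ∫⁻ z in (KK n c)ᶜ,
      ENNReal.ofReal (‖deriv (fun z => p.eval z * V n c z) z‖ ^ 2) ≤
      ENNReal.ofReal (∫ z in KK n c, ‖p.eval z‖ ^ 2) := by
  have hcM : c ∈ multibrotSet n := hsub (mem_ball_self hr)
  have hc2 : ‖c‖ ≤ 2 := norm_le_two_of_sub hn hcM
  set Φ : ℕ → ℂ → ENNReal := fun j z => ENNReal.ofReal
    (‖deriv (fun z => p.eval z * (1 - S n c z (j + 1))) z‖ ^ 2) with hΦ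
  set Φ' : ℂ → ENNReal := fun z => ENNReal.ofReal
    (‖deriv (fun z => p.eval z * V n c z) z‖ ^ 2) with hΦ'
  have hm : ∀ j, Measurable (Φ j) := fun j =>
    ENNReal.measurable_ofReal.comp (((measurable_deriv _).norm).pow_const 2)
  have hEm : ∀ j, MeasurableSet (EE n c j)ᶜ := fun j =>
    (isCompact_EE hn hc2 j).isClosed.measurableSet.compl
  have hKE : KK n c = ⋂ j, EE n c j := (iInter_EE hn hc2).symm
  have hKm : MeasurableSet (KK n c)ᶜ := by
    rw [hKE]
    exact (MeasurableSet.iInter fun j =>
      (isCompact_EE hn hc2 j).isClosed.measurableSet).compl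
  -- pointwise convergence
  have hpt : ∀ z, Tendsto (fun j => (EE n c j)ᶜ.indicator (Φ j) z) atTop
      (𝓝 ((KK n c)ᶜ.indicator Φ' z)) := by
    intro z
    by_cases hz : z ∈ KK n c
    · have h1 : ∀ j, (EE n c j)ᶜ.indicator (Φ j) z = 0 := fun j => by
        apply indicator_of_notMem
        rw [notMem_compl_iff]
        rw [hKE, mem_iInter] at hz
        exact hz j
      simp only [h1]
      rw [indicator_of_notMem (by rw [notMem_compl_iff]; exact hz)]
      exact tendsto_const_nhds
    · have hze : Esc n c z := by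
        have h1 : ¬¬ Tendsto (fun k => (fun z => z ^ n + c)^[k] z) atTop
          (Bornology.cobounded ℂ) := hz
        exact not_not.mp h1
      rw [indicator_of_mem (show z ∈ (KK n c)ᶜ from hz)]
      have h1 : ∀ᶠ j in atTop, (EE n c j)ᶜ.indicator (Φ j) z = Φ j z := by
        filter_upwards [eventually_big hze 3] with j hj
        apply indicator_of_mem
        intro h2
        have h3 : ‖orb n c z j‖ ≤ 3 := h2
        linarith
      refine Tendsto.congr' (Filter.EventuallyEq.symm h1) ?_
      obtain ⟨hVd, hVt⟩ := deriv_V hn hcM hze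
      have hPne : ∀ k, Pool.Agent.W746.LD.P n c z k ≠ 0 := fun k =>
        Pool.Agent.W746.LD.P_ne_zero hn fun i _ => esc_ne_zero hn hcM hze i
      have hpd := p.differentiable.differentiableAt (x := z)
      have e1 : ∀ j, deriv (fun z => p.eval z * (1 - S n c z (j + 1))) z =
          deriv (fun z => p.eval z) z * (1 - S n c z (j + 1)) +
            p.eval z * deriv (fun w => 1 - S n c w (j + 1)) z := fun j =>
        deriv_fun_mul hpd (DifferentiableAt.const_sub
          (Pool.Agent.W746.LD.differentiableAt_S (j + 1) fun i _ => hPne i) 1)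
      have e2 : deriv (fun z => p.eval z * V n c z) z =
          deriv (fun z => p.eval z) z * V n c z + p.eval z * deriv (V n c) z :=
        deriv_fun_mul hpd hVd
      have e3 : Tendsto (fun j => 1 - S n c z (j + 1)) atTop (𝓝 (V n c z)) :=
        (tendsto_S hn hze).const_sub 1
      have e4 : Tendsto (fun j => deriv (fun z => p.eval z * (1 - S n c z (j + 1))) z) atTop
          (𝓝 (deriv (fun z => p.eval z * V n c z) z)) := by
        rw [e2]
        simp only [e1]
        exact (e3.const_mul _).add (hVt.const_mul _)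
      exact (ENNReal.continuous_ofReal.tendsto _).comp ((e4.norm).pow 2)
  have hfat : ∫⁻ z in (KK n c)ᶜ, Φ' z ≤ liminf (fun j => ∫⁻ z in (EE n c j)ᶜ, Φ j z) atTop := by
    rw [← lintegral_indicator hKm]
    have h1 : ∀ z, (KK n c)ᶜ.indicator Φ' z =
        liminf (fun j => (EE n c j)ᶜ.indicator (Φ j) z) atTop := fun z => (hpt z).liminf_eq.symm
    rw [lintegral_congr h1]
    refine (lintegral_liminf_le fun j => (hm j).indicator (hEm j)).trans (le_of_eq ?_)
    congr 1
    funext j
    rw [lintegral_indicator (hEm j)]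
  have hlev : ∀ j, ENNReal.ofReal (r ^ 2) * ∫⁻ z in (EE n c j)ᶜ, Φ j z ≤
      ENNReal.ofReal (∫ z in EE n c j, ‖p.eval z‖ ^ 2) := fun j => level_dir hn hp hr hsub j
  have hlim : Tendsto (fun j => ENNReal.ofReal (∫ z in EE n c j, ‖p.eval z‖ ^ 2)) atTop
      (𝓝 (ENNReal.ofReal (∫ z in KK n c, ‖p.eval z‖ ^ 2))) :=
    (ENNReal.continuous_ofReal.tendsto _).comp (tendsto_Mo hn hc2 p)
  have hr2 : ENNReal.ofReal (r ^ 2) ≠ 0 := by
    rw [ne_eq, ENNReal.ofReal_eq_zero, not_le]
    positivity
  have h1 : ∀ j, ∫⁻ z in (EE n c j)ᶜ, Φ j z ≤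
      (ENNReal.ofReal (r ^ 2))⁻¹ * ENNReal.ofReal (∫ z in EE n c j, ‖p.eval z‖ ^ 2) := by
    intro j
    exact (ENNReal.mul_le_iff_le_inv hr2 ENNReal.ofReal_ne_top).mp (hlev j)
  have h2 : liminf (fun j => ∫⁻ z in (EE n c j)ᶜ, Φ j z) atTop ≤
      (ENNReal.ofReal (r ^ 2))⁻¹ * ENNReal.ofReal (∫ z in KK n c, ‖p.eval z‖ ^ 2) := by
    have h3 : Tendsto (fun j => (ENNReal.ofReal (r ^ 2))⁻¹ *
        ENNReal.ofReal (∫ z in EE n c j, ‖p.eval z‖ ^ 2)) atTop
        (𝓝 ((ENNReal.ofReal (r ^ 2))⁻¹ * ENNReal.ofReal (∫ z in KK n c, ‖p.eval z‖ ^ 2))) :=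
      ENNReal.Tendsto.const_mul hlim (Or.inr (by
        rw [ne_eq, ENNReal.inv_eq_top]
        exact hr2))
    rw [← h3.liminf_eq]
    exact liminf_le_liminf (Filter.Eventually.of_forall h1)
  have h3 := hfat.trans h2
  exact (ENNReal.mul_le_iff_le_inv hr2 ENNReal.ofReal_ne_top).mpr h3

end Pool.Agent.X151.MD
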